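import Pool.Agent.Y204.NM.Gor

/-!
`Hom(I/I², N)` of finite projective dimension, `N` with a free summand: quasi-homogeneous rings.

`I` is an ideal of a Noetherian local ring `S`, `R = S/I`, `N = Hom_R(I/I², R)`.
-/

set_option autoImplicit false

open CategoryTheory IsLocalRing MvPolynomial

namespace Pool.Agent.Results.MP_c5773f_ag.FreeSummandGraded

/-- The module `Hom_R(I/I², M)`, `R = S/I`. -/
abbrev HomConormal {S : Type} [CommRing S] (I : Ideal S) (M : Type) [AddCommGroup M]
    [Module (S ⧸ I) M] : Type := I.Cotangent →ₗ[S ⧸ I] M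

/-- `M` has finite projective dimension over `R`. -/
def FinitePd (R M : Type) [CommRing R] [AddCommGroup M] [Module R M] : Prop :=
  ∃ n : ℕ, HasProjectiveDimensionLT (ModuleCat.of R M) n

/-- Every `R`-regular sequence has length at most `t` (for a Noetherian local ring this says
`depth R ≤ t`). -/
def DepthLE (R : Type) [CommRing R] (t : ℕ) : Prop :=
  ∀ rs : List R, RingTheory.Sequence.IsRegular R rs → rs.length ≤ t

/-- `Ext^i_R(I/I², R) = 0`. -/
def ExtVanishes {S : Type} [CommRing S] (I : Ideal S) (i : ℕ) : Prop :=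
  Subsingleton (Abelian.Ext (ModuleCat.of (S ⧸ I) I.Cotangent) (ModuleCat.of (S ⧸ I) (S ⧸ I)) i)

/-- `I` is generated by an `S`-regular sequence. -/
def RegularlyGenerated {S : Type} [CommRing S] (I : Ideal S) : Prop :=
  ∃ rs : List S, Ideal.span {r : S | r ∈ rs} = I ∧ RingTheory.Sequence.IsRegular S rs


/-- `Hom(I/I², R)` is a direct summand of `Hom(I/I², M)` when `M` maps onto `R`. -/
lemma normal_of_hom {S : Type} [CommRing S] (I : Ideal S) (M : Type) [AddCommGroup M]
    [Module (S ⧸ I) M] (π : M →ₗ[S ⧸ I] (S ⧸ I)) (hπ : Function.Surjective π)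
    (h : FinitePd (S ⧸ I) (HomConormal I M)) :
    FinitePd (S ⧸ I) (I.Cotangent →ₗ[S ⧸ I] (S ⧸ I)) := by
  obtain ⟨q, hq⟩ := h
  obtain ⟨σ, hσ⟩ := Module.projective_lifting_property π LinearMap.id hπ
  refine ⟨q, ?_⟩
  refine Pool.Agent.Y204.NM.pdLT_retract
    (LinearMap.compRight (S ⧸ I) σ : (I.Cotangent →ₗ[S ⧸ I] (S ⧸ I)) →ₗ[S ⧸ I] HomConormal I M)
    (LinearMap.compRight (S ⧸ I) π) ?_ hq
  apply LinearMap.ext
  intro φ
  apply LinearMap.ext
  intro y
  exact congrArg (fun l => l (φ y)) hσ

/-- Let `S` be the localization of `k[x_1,…,x_n]` at a prime containing the variables of nonzero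
weight (for instance at the origin; this is a regular local ring), `I ≠ S` generated by weighted
homogeneous polynomials whose degrees are nonzero in the field `k`, `R = S/I`, and `M` an
`R`-module which maps onto `R` (for instance `M = R`). If `Hom_R(I/I², M)` has finite projective
dimension and `Ext^i_R(I/I², R) = 0` for `1 ≤ i ≤ depth R - 2` (no condition if `depth R ≤ 2`),
then `I` is generated by a regular sequence, so that `R` is a complete intersection. -/
theorem result (k : Type) [Field k] (n : ℕ) (w : Fin n → ℕ) (Q : Ideal (MvPolynomial (Fin n) k))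
    [Q.IsPrime] (hQ : ∀ i, w i ≠ 0 → (X i : MvPolynomial (Fin n) k) ∈ Q)
    (m : ℕ) (f : Fin m → MvPolynomial (Fin n) k) (d : Fin m → ℕ)
    (hf : ∀ l, (f l).IsWeightedHomogeneous w (d l)) (hd : ∀ l, (d l : k) ≠ 0)
    (S : Type) [CommRing S] [Algebra (MvPolynomial (Fin n) k) S] [IsLocalization.AtPrime S Q]
    (I : Ideal S) (hIf : I = Ideal.span (Set.range fun l => algebraMap _ S (f l))) (hI : I ≠ ⊤)
    (M : Type) [AddCommGroup M] [Module (S ⧸ I) M]
    (π : M →ₗ[S ⧸ I] (S ⧸ I)) (hπ : Function.Surjective π)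
    (hM : FinitePd (S ⧸ I) (HomConormal I M)) (t : ℕ)
    (ht : DepthLE (S ⧸ I) t) (hext : ∀ i, 1 ≤ i → i + 2 ≤ t → ExtVanishes I i) :
    RegularlyGenerated I := by
  have hS : IsLocalRing S := IsLocalization.AtPrime.isLocalRing S Q
  have hSN : IsNoetherianRing S := IsLocalization.isNoetherianRing Q.primeCompl S inferInstance
  have hpd : HasProjectiveDimensionLT (ModuleCat.of S I) (n + 1) := by
    rw [hIf]
    exact Pool.Agent.Y204.NM.pdLT_localization k Q S f
  obtain ⟨D, a, -, -, hE⟩ := Pool.Agent.Y204.NM.contracting_weighted k Q S w hQ f d hf hd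
  rw [← hIf] at hE
  obtain ⟨q, hq⟩ := normal_of_hom I M π hπ hM
  have hnt : Nontrivial (S ⧸ I) := Ideal.Quotient.nontrivial_iff.2 hI
  have hloc : IsLocalRing (S ⧸ I) :=
    IsLocalRing.of_surjective' (Ideal.Quotient.mk I) Ideal.Quotient.mk_surjective
  have hfin : Module.Finite (S ⧸ I) I.Cotangent := by
    have h1 : Module.Finite S I.Cotangent :=
      Module.Finite.of_surjective I.toCotangent I.toCotangent_surjective
    exact Module.Finite.of_restrictScalars_finite S (S ⧸ I) I.Cotangent
  have hfin2 : Module.Finite (S ⧸ I) (I.Cotangent →ₗ[S ⧸ I] (S ⧸ I)) := inferInstance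
  have hfree := Pool.Agent.Y204.NM.dual_free_of_ext (S ⧸ I) t ht I.Cotangent hext hq
  exact Pool.Agent.Y204.NM.regular_of_free I hI hpd D a hE

end Pool.Agent.Results.MP_c5773f_ag.FreeSummandGraded
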