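import Pool.Agent.Y204.NM.Local

/-!
`Hom(I/I², N)` of finite projective dimension, `N` with a free summand: arbitrary local rings.

`I` is an ideal of a Noetherian local ring `S`, `R = S/I`, `N = Hom_R(I/I², R)`.
-/

set_option autoImplicit false

open CategoryTheory IsLocalRing MvPolynomial

namespace Pool.Agent.Results.MP_c5773f_ag.FreeSummandLocal

/-- The module `Hom_R(I/I², M)`, `R = S/I`. -/
abbrev HomConormal {S : Type} [CommRing S] (I : Ideal S) (M : Type) [AddCommGroup M]
    [Module (S ⧸ I) M] : Type := I.Cotangent →ₗ[S ⧸ I] M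

/-- `M` has finite projective dimension over `R`. -/
def FinitePd (R M : Type) [CommRing R] [AddCommGroup M] [Module R M] : Prop :=
  ∃ n : ℕ, HasProjectiveDimensionLT (ModuleCat.of R M) n

/-- Every `R`-regular sequence has length at most `t` (for a Noetherian local ring this says
`depth R ≤ t`). -/
def DepthLE (R : Type) [CommRing R] (t : ℕ) : Prop :=
  ∀ rs : List R, RingTheory.Sequence.IsRegular R rs → rs.length ≤ t

/-- `Ext^i_R(I/I², R) = 0`. -/
def ExtVanishes {S : Type} [CommRing S] (I : Ideal S) (i : ℕ) : Prop :=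
  Subsingleton (Abelian.Ext (ModuleCat.of (S ⧸ I) I.Cotangent) (ModuleCat.of (S ⧸ I) (S ⧸ I)) i)

/-- `I` is generated by an `S`-regular sequence. -/
def RegularlyGenerated {S : Type} [CommRing S] (I : Ideal S) : Prop :=
  ∃ rs : List S, Ideal.span {r : S | r ∈ rs} = I ∧ RingTheory.Sequence.IsRegular S rs


/-- `Hom(I/I², R)` is a direct summand of `Hom(I/I², M)` when `M` maps onto `R`. -/
lemma normal_of_hom {S : Type} [CommRing S] (I : Ideal S) (M : Type) [AddCommGroup M]
    [Module (S ⧸ I) M] (π : M →ₗ[S ⧸ I] (S ⧸ I)) (hπ : Function.Surjective π)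
    (h : FinitePd (S ⧸ I) (HomConormal I M)) :
    FinitePd (S ⧸ I) (I.Cotangent →ₗ[S ⧸ I] (S ⧸ I)) := by
  obtain ⟨q, hq⟩ := h
  obtain ⟨σ, hσ⟩ := Module.projective_lifting_property π LinearMap.id hπ
  refine ⟨q, ?_⟩
  refine Pool.Agent.Y204.NM.pdLT_retract
    (LinearMap.compRight (S ⧸ I) σ : (I.Cotangent →ₗ[S ⧸ I] (S ⧸ I)) →ₗ[S ⧸ I] HomConormal I M)
    (LinearMap.compRight (S ⧸ I) π) ?_ hq
  apply LinearMap.ext
  intro φ
  apply LinearMap.ext
  intro y
  exact congrArg (fun l => l (φ y)) hσ

/-- Let `S` be a Noetherian local ring, `I ≠ S` an ideal of finite projective dimension (any proper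
ideal if `S` is regular), `R = S/I`, and `M` an `R`-module which maps onto `R` (for instance
`M = R`, or any finitely generated `M ≠ 0` of finite projective dimension when `depth R = 0`). If
`Hom_R(I/I², M)` has finite projective dimension and `Ext^i_R(I/I², R) = 0` for
`1 ≤ i ≤ depth R - 1` (no condition if `depth R ≤ 1`), then `I` is generated by a regular
sequence, so that `R` is a complete intersection if `S` is regular. -/
theorem result (S : Type) [CommRing S] [IsNoetherianRing S] [IsLocalRing S] (I : Ideal S)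
    (hI : I ≠ ⊤) (hpd : FinitePd S I) (M : Type) [AddCommGroup M] [Module (S ⧸ I) M]
    (π : M →ₗ[S ⧸ I] (S ⧸ I)) (hπ : Function.Surjective π)
    (hM : FinitePd (S ⧸ I) (HomConormal I M)) (t : ℕ)
    (ht : DepthLE (S ⧸ I) t) (hext : ∀ i, 1 ≤ i → i + 1 ≤ t → ExtVanishes I i) :
    RegularlyGenerated I := by
  obtain ⟨p, hp⟩ := hpd
  obtain ⟨q, hq⟩ := normal_of_hom I M π hπ hM
  exact Pool.Agent.Y204.NM.regular_of_ext I hI hp hq t ht hext

end Pool.Agent.Results.MP_c5773f_ag.FreeSummandLocal
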